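import Pool.Agent.N748.MJ.Fin2

set_option autoImplicit false

/-!
# Shifted moments of all orders near the critical line: the full diagonal main term
-/

namespace Pool.Agent.Results.MP_fa2474_nt.DiagonalMainTerm

open MeasureTheory Filter Topology

/-- `τ_l(n)`: the sum over the factorisations `n = e_1 ... e_k` of `∏ e_j^(l_j)` -/
noncomputable def tau {k : ℕ} (l : Fin k → ℂ) (n : ℕ) : ℂ := ∑ e ∈ Nat.finMulAntidiag k n, ∏ j, ((e j : ℕ) : ℂ) ^ (l j)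

/-- `ζ_(a,b)(s) = ∑ τ_(ib)(n) τ_(-ia)(n) n^(-2s)` for real `s > 1/2` -/
noncomputable def zab {k : ℕ} (a b : Fin k → ℝ) (s : ℝ) : ℂ :=
  ∑' n : ℕ, tau (fun j => Complex.I * (b j : ℂ)) n * tau (fun j => -(Complex.I * (a j : ℂ))) n *
    (((n : ℝ) ^ (-(2 * s)) : ℝ) : ℂ)

/-- `∏ ζ(1/2 + d + i(t+a_j)) ζ(1/2 + d - i(t+b_j))` -/
noncomputable def Z {k : ℕ} (a b : Fin k → ℝ) (d t : ℝ) : ℂ :=
  ∏ j, riemannZeta (1 / 2 + d + (t + a j) * Complex.I) * riemannZeta (1 / 2 + d - (t + b j) * Complex.I)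

/-- the heights up to `T` at which none of the factors of `Z` exceeds `d^(-V)` -/
def G {k : ℕ} (a b : Fin k → ℝ) (V d T : ℝ) : Set ℝ :=
  {t : ℝ | t ∈ Set.Icc 0 T ∧ ∀ j, ‖riemannZeta (1 / 2 + d + ((t + a j : ℝ) : ℂ) * Complex.I)‖ ≤ d ^ (-V) ∧
    ‖riemannZeta (1 / 2 + d + ((t + b j : ℝ) : ℂ) * Complex.I)‖ ≤ d ^ (-V)}

theorem result (k : ℕ) (D : ℝ) (hD : 0 < D) : ∃ V0 : ℝ, ∀ V : ℝ, V0 ≤ V → ∀ d : ℝ → ℝ, (∀ᶠ T : ℝ in atTop, 0 < d T) →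
    Tendsto d atTop (𝓝 0) → Tendsto (fun T : ℝ => d T * Real.log T / Real.log (1 / d T) ^ 2) atTop atTop →
    ∀ a b : ℝ → Fin k → ℝ, (∀ᶠ T : ℝ in atTop, ∀ j, |a T j| ≤ T ^ ((1:ℝ) / 2) ∧ |b T j| ≤ T ^ ((1:ℝ) / 2)) →
    ∀ᶠ T : ℝ in atTop,
      ‖((1 / T : ℝ) : ℂ) * (∫ t in G (a T) (b T) V (d T) T, Z (a T) (b T) (d T) t) - zab (a T) (b T) (1 / 2 + d T)‖ ≤
        d T ^ D := by
  obtain ⟨V0, h⟩ := Pool.Agent.N748.MJ.srfF k D hD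
  exact ⟨V0, fun V hV d hd0 hd hdL a b hab => h V hV d ⟨hd0, hd, hdL⟩ a b hab⟩

end Pool.Agent.Results.MP_fa2474_nt.DiagonalMainTerm
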