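import Pool.Agent.Y743.LR.NX
import Pool.Agent.N748.UG.Few

/-!
# The unfolded gaps of the zeta zeros are not close to a coboundary (under RH)

Assume the Riemann hypothesis and let `δ_n` be the unfolded gaps. For every constant `C` there is
`ε > 0` such that for all large `N`, all real `b` and all real sequences `x` with
`|x_1|³ + … + |x_N|³ ≤ C N`, at least `ε N` of the indices `n ≤ N` satisfy
`|δ_n - b - (x_{n+1} - x_n)| ≥ ε`. The main work is the theorem `Pool.Agent.Y743.LR.lattice` of the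
library of this repository.
-/

open Filter Topology

namespace Pool.Agent.Results.MP_7eacff_nt.NotApproximateCoboundary

/-- multiplicity of `s` as a zero of the Riemann zeta function (order of vanishing at `s`) -/
noncomputable def zmult (s : ℂ) : ℕ := analyticOrderNatAt riemannZeta s

/-- the number of nontrivial zeros of `ζ` with ordinate in `(0, t]`, with multiplicity -/
noncomputable def NZ (t : ℝ) : ℕ :=
  ∑ᶠ s ∈ {s : ℂ | riemannZeta s = 0 ∧ 0 < s.re ∧ s.re < 1 ∧ 0 < s.im ∧ s.im ≤ t}, zmult s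

/-- for `n ≥ 1`: the `n`-th positive ordinate `γ n` of a nontrivial zero of `ζ`, the ordinates being
listed in nondecreasing order and repeated according to multiplicity -/
noncomputable def γ (n : ℕ) : ℝ := sInf {t : ℝ | n ≤ NZ t}

/-- the unfolded consecutive gaps `δ_n = (γ_{n+1} - γ_n) / 2π · log (γ_n / 2π)` -/
noncomputable def δ (n : ℕ) : ℝ :=
  (γ (n + 1) - γ n) / (2 * Real.pi) * Real.log (γ n / (2 * Real.pi))

/-- On the Riemann hypothesis: for every `C` there is `ε > 0` such that for all large `N`, every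
real `b` and every real sequence `x` with `|x_1|³ + … + |x_N|³ ≤ C N`, at least `ε N` of the indices
`n ≤ N` satisfy `|δ_n - b - (x_{n+1} - x_n)| ≥ ε`. -/
theorem result (RH : RiemannHypothesis) (C : ℝ) : ∃ ε : ℝ, 0 < ε ∧ ∃ N₀ : ℕ, ∀ N : ℕ, N₀ ≤ N →
    ∀ (b : ℝ) (x : ℕ → ℝ), ∑ n ∈ Finset.Icc 1 N, |x n| ^ 3 ≤ C * N →
      ε * N ≤ ({n : ℕ | 1 ≤ n ∧ n ≤ N ∧ ε ≤ |δ n - b - (x (n + 1) - x n)|}.ncard : ℝ) := by
  obtain ⟨ε0, hε0, h⟩ := Y743.LR.lattice RH C
  obtain ⟨ε, hε⟩ : ∃ ε, ε = min (ε0 / 4) 1 := ⟨_, rfl⟩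
  have hε1 : ε ≤ ε0 / 4 := by rw [hε]; exact min_le_left _ _
  have hε2 : ε ≤ 1 := by rw [hε]; exact min_le_right _ _
  have hεp : 0 < ε := by rw [hε]; positivity
  obtain ⟨N1, h1⟩ := h.exists_forall_of_atTop
  obtain ⟨N2, h2⟩ := N748.UG.few_long 1 hεp hεp
  obtain ⟨N3, h3⟩ := (SG.ord_tendsto.eventually_ge_atTop 10).exists_forall_of_atTop
  obtain ⟨N4, h4⟩ := exists_nat_ge ((N3 : ℝ) / ε)
  refine ⟨ε, hεp, max (max N1 N2) N4, fun N hN b x hx => ?_⟩
  have hN1 : N1 ≤ N := ((le_max_left _ _).trans (le_max_left _ _)).trans hN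
  have hN2 : N2 ≤ N := ((le_max_right _ _).trans (le_max_left _ _)).trans hN
  have hN4 : N4 ≤ N := (le_max_right _ _).trans hN
  have k1 := h1 N hN1 x b hx
  have k2 := h2 N hN2
  have k3 : (N3 : ℝ) ≤ ε * N := by
    have : (N4 : ℝ) ≤ N := by exact_mod_cast hN4
    have h5 := h4.trans this
    rw [div_le_iff₀ hεp] at h5
    linarith
  set S0 : Set ℕ := {n : ℕ | 1 ≤ n ∧ n ≤ N ∧ ε0 ≤ |LG.dlt n - b - (x (n + 1) - x n)|} with hS0
  set S1 : Set ℕ := {n : ℕ | 1 ≤ n ∧ n ≤ N ∧ ε < SG.ord (n + 1) - SG.ord n} with hS1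
  set S2 : Set ℕ := Set.Icc 1 N3 with hS2
  set S3 : Set ℕ := {n : ℕ | 1 ≤ n ∧ n ≤ N ∧ ε ≤ |δ n - b - (x (n + 1) - x n)|} with hS3
  have hf : ∀ P : ℕ → Prop, {n : ℕ | 1 ≤ n ∧ n ≤ N ∧ P n}.Finite := fun P =>
    (Set.finite_Icc 1 N).subset fun n hn => ⟨hn.1, hn.2.1⟩
  have hsub : S0 ⊆ S1 ∪ (S2 ∪ S3) := by
    rintro n ⟨a1, a2, a3⟩
    by_cases c1 : ε < SG.ord (n + 1) - SG.ord n
    · exact Or.inl ⟨a1, a2, c1⟩
    by_cases c2 : n ≤ N3
    · exact Or.inr (Or.inl ⟨a1, c2⟩)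
    refine Or.inr (Or.inr ⟨a1, a2, ?_⟩)
    push Not at c1 c2
    have b1 := N748.UG.norm_close a1 (h3 n c2.le) hε2 c1
    have e1 : δ n = (SG.ord (n + 1) - SG.ord n) * Real.log (SG.ord n / (2 * Real.pi)) /
        (2 * Real.pi) := by
      have : δ n = (SG.ord (n + 1) - SG.ord n) / (2 * Real.pi) *
        Real.log (SG.ord n / (2 * Real.pi)) := rfl
      rw [this]
      ring
    rw [← e1] at b1
    have b2 : |LG.dlt n - b - (x (n + 1) - x n)| ≤
        |LG.dlt n - δ n| + |δ n - b - (x (n + 1) - x n)| := by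
      refine le_trans (le_of_eq ?_) (abs_add_le _ _)
      congr 1
      ring
    linarith
  have hc2 : S2.ncard = N3 := by
    rw [hS2, ← Finset.coe_Icc, Set.ncard_coe_finset, Nat.card_Icc]
    omega
  have hc : S0.ncard ≤ S1.ncard + (S2.ncard + S3.ncard) := by
    refine (Set.ncard_le_ncard hsub ((hf _).union ((Set.finite_Icc _ _).union (hf _)))).trans ?_
    refine (Set.ncard_union_le _ _).trans ?_
    exact Nat.add_le_add_left (Set.ncard_union_le _ _) _
  rw [hc2] at hc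
  have hcr : (S0.ncard : ℝ) ≤ S1.ncard + (N3 + S3.ncard) := by exact_mod_cast hc
  have hN0 : (0 : ℝ) ≤ N := Nat.cast_nonneg N
  have k4 : 4 * ε * N ≤ ε0 * N := by
    apply mul_le_mul_of_nonneg_right _ hN0
    linarith
  nlinarith

end Pool.Agent.Results.MP_7eacff_nt.NotApproximateCoboundary
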