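import Pool.Agent.N748.MJ.Rl

set_option autoImplicit false

/-!
# Shifted moments of zeta near the critical line with arbitrary real exponents
-/

namespace Pool.Agent.Results.MP_fa2474_nt.RealExponents

open MeasureTheory Filter Topology

/-- the modulus of zeta at distance `d` from the critical line and height `t` -/
noncomputable def z (d t : ℝ) : ℝ := ‖riemannZeta (1 / 2 + d + t * Complex.I)‖

/-- the coefficient of `x^n` in `∏ (1 - x q^(-i h_j))^(-k_j)` -/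
noncomputable def c {m : ℕ} (k h : Fin m → ℝ) (q n : ℕ) : ℂ :=
  ∑ μ ∈ Finset.piAntidiag (Finset.univ : Finset (Fin m)) n,
    ∏ j, (((∏ i ∈ Finset.range (μ j), (k j + i) / ((i : ℝ) + 1) : ℝ) : ℂ) *
      (q : ℂ) ^ (-((μ j * h j : ℝ) * Complex.I)))

/-- the arithmetic factor `∏_p ∏_(j,l) |1 - p^(-1-i(h_j-h_l))|^(k_j k_l) ∑_n |c(n)|² p^(-n)` -/
noncomputable def A {m : ℕ} (k h : Fin m → ℝ) : ℝ :=
  ∏' p : Nat.Primes, (∏ j, ∏ l, ‖1 - ((p : ℕ) : ℂ) ^ (-(1 + ((h j - h l : ℝ) : ℂ) * Complex.I))‖ ^ (k j * k l)) *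
    ∑' n : ℕ, ‖c k h p n‖ ^ 2 * (1 / ((p : ℕ) : ℝ)) ^ n

/-- the mean of `∏ |ζ(1/2 + d + i(t+h_j))|^(2 k_j)` over the `t` in `[0, T]` with all factors `|ζ| ≤ (2d)^(-V)` -/
noncomputable def M {m : ℕ} (k h : Fin m → ℝ) (V d T : ℝ) : ℝ :=
  (1 / T) * ∫ t in {t : ℝ | t ∈ Set.Icc 0 T ∧ ∀ j, z d (t + h j) ≤ (2 * d) ^ (-V)}, ∏ j, z d (t + h j) ^ (2 * k j)

lemma A_eq {m : ℕ} (k h : Fin m → ℝ) : A k h = Pool.Agent.N748.MJ.aR k h := rfl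

theorem result (d : ℝ → ℝ) (hd0 : ∀ᶠ T : ℝ in atTop, 0 < d T) (hd : Tendsto d atTop (𝓝 0))
    (hdL : Tendsto (fun T : ℝ => d T * Real.log T / Real.log (1 / d T) ^ 2) atTop atTop)
    (m : ℕ) (k : Fin m → ℝ) (hk : ∀ j, 0 < k j) (V : ℝ) (hV : ∑ j, k j < V) (h : ℝ → Fin m → ℝ)
    (hh : ∀ᶠ T : ℝ in atTop, ∀ j, |h T j| ≤ T ^ ((1:ℝ) / 2)) :
    Tendsto (fun T : ℝ => M k (h T) V (d T) T / (A k (h T) *
      ∏ j, ∏ l, ‖riemannZeta (((1 + 2 * d T : ℝ) : ℂ) + ((h T j - h T l : ℝ) : ℂ) * Complex.I)‖ ^ (k j * k l)))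
      atTop (𝓝 1) := by
  have h1 := Pool.Agent.N748.MJ.smF d ⟨hd0, hd, hdL⟩ m k V hk hV h hh
  refine h1.congr fun T => ?_
  rw [A_eq, ← (Pool.Agent.N748.MJ.aR_eq k (h T)).1]
  rfl

end Pool.Agent.Results.MP_fa2474_nt.RealExponents
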