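import Pool.Agent.N748.MM.Fin
import Pool.Agent.Helper240.ZU.N7
import Pool.Agent.Helper240.ZFM.N6
import Pool.Agent.Helper240.ZFM.Q5b

set_option autoImplicit false

/-!
# MP_f9aece_nt: moments of zeta near the critical line over sets prescribed by the shifts in the strip

Let `0 < β ≤ 4`, `δ(T) → 0`, `δ(T) log T → ∞`. The moments of order `β` of `ζ(1/2 + δ + it)`, restricted by a condition
on the values `ζ(z + it)`, `z` in a compact subset `K` of the strip `1/2 < Re z < 1`, and by a condition on the normalised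
logarithm of `|ζ(1/2 + δ + it)|`, have an asymptotic formula: for every bounded functional `Φ` which is uniformly continuous
for the supremum norm over `K` and every bounded continuous `F`,

`(2δ)^(β²/4) (1/T) ∫_0^T |ζ(1/2 + δ + it)|^β F(X_t) Φ(ζ(· + it)) dt → a(β/2) E[Φ] ∫ F dγ`,

where `γ` is the standard normal law, `X_t` the normalised logarithm and `E[Φ]` is the limit of the expectations of
`Φ(∏_{p ≤ M} (1 - x_p p^(-z))^(-1))` for independent phases `x_p` of density proportional to `|1 - x p^(-1/2)|^(-β)` on the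
unit circle. Moreover `ζ` is universal under these measures: for every admissible pair `(K, f)` (zeros of `f` on the boundary
are allowed) the `t ∈ [0, T]` with `sup_{z ∈ K} |ζ(z + it) - f(z)| < ε` and `X_t ∈ U` carry asymptotically at least
`κ γ(U)` times the whole moment, for every open set `U`, with `κ > 0` depending only on `β, K, f, ε`.
-/

open Filter Topology MeasureTheory ProbabilityTheory

namespace Pool.Agent.Results.MP_f9aece_nt.UniversalityMomentMeasures

/-- the coefficients `Γ(κ + m) / (Γ(κ) m!)` of `(1 - x)^(-κ)` -/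
noncomputable def dd (κ : ℝ) (m : ℕ) : ℝ := Real.Gamma (κ + m) / (Real.Gamma κ * (m.factorial : ℝ))

/-- the arithmetic factor of the moment conjecture for `|ζ|^(2κ)` -/
noncomputable def ak (κ : ℝ) : ℝ :=
  ∏' p : Nat.Primes, ((1 - 1 / (p : ℝ)) ^ (κ ^ 2) * ∑' m : ℕ, dd κ m ^ 2 / (p : ℝ) ^ m)

/-- `|ζ(1/2 + δ + it)|` -/
noncomputable def zs (δ t : ℝ) : ℝ := ‖riemannZeta (1 / 2 + δ + Complex.I * (t : ℂ))‖

/-- the normalised logarithm of `|ζ(1/2 + δ + it)|` -/
noncomputable def nlog (β δ t : ℝ) : ℝ :=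
  (Real.log (zs δ t) - β / 2 * Real.log (1 / (2 * δ))) / Real.sqrt (Real.log (1 / (2 * δ)) / 2)

/-- the function `z ↦ ζ(z + it)` -/
noncomputable def shift (t : ℝ) : ℂ → ℂ := fun z => riemannZeta (z + t * Complex.I)

/-- `δ(T)` tends to zero and `δ(T) log T` tends to infinity -/
structure NearLine (δ : ℝ → ℝ) : Prop where
  tendsto_zero : Tendsto δ atTop (𝓝 0)
  mul_log : Tendsto (fun T : ℝ => δ T * Real.log T) atTop atTop

/-- `Φ` is bounded and uniformly continuous for the supremum norm over `K` -/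
structure IsTest (K : Set ℂ) (Φ : (ℂ → ℂ) → ℝ) : Prop where
  bounded : ∃ B : ℝ, ∀ g, |Φ g| ≤ B
  unif : ∀ ε : ℝ, 0 < ε → ∃ d : ℝ, 0 < d ∧ ∀ g h : ℂ → ℂ, (∀ z ∈ K, ‖g z - h z‖ ≤ d) → |Φ g - Φ h| ≤ ε

/-- the primes up to `M` -/
def primesUpTo (M : ℕ) : Finset ℕ := (Finset.Icc 1 M).filter Nat.Prime

/-- the law of the phase `w = e^(2πiy)` at the prime `p`: density proportional to `|1 - w p^(-1/2)|^(-β)` -/
noncomputable def phaseLaw (β : ℝ) (p : ℕ) : Measure UnitAddCircle :=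
  AddCircle.haarAddCircle.tilted fun y => -β * Real.log ‖1 - (fourier 1 y : ℂ) / (Real.sqrt p : ℂ)‖

/-- the law of the independent phases at the primes up to `M` -/
noncomputable def phases (β : ℝ) (M : ℕ) : Measure (primesUpTo M → UnitAddCircle) :=
  Measure.pi fun p : primesUpTo M => phaseLaw β (p : ℕ)

/-- the Euler product with phases `x` -/
noncomputable def euler (M : ℕ) (x : primesUpTo M → UnitAddCircle) : ℂ → ℂ := fun z =>
  ∏ p : primesUpTo M, (1 - (fourier 1 (x p) : ℂ) * ((p : ℕ) : ℂ) ^ (-z))⁻¹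

/-- `(K, f)` is admissible: `K` is a compact subset of the strip `1/2 < Re z < 1` with connected
complement, `f` is continuous on `K` and holomorphic without zeros in the interior of `K`
(zeros on the boundary are allowed). -/
structure Admissible (K : Set ℂ) (f : ℂ → ℂ) : Prop where
  compact : IsCompact K
  strip : ∀ z ∈ K, 1 / 2 < z.re ∧ z.re < 1
  compl_connected : IsConnected Kᶜ
  cont : ContinuousOn f K
  hol : DifferentiableOn ℂ f (interior K)
  nonzero : ∀ z ∈ interior K, f z ≠ 0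

/-- the `t ∈ [0, T]` with `sup_{z ∈ K} |ζ(z + it) - f(z)| < ε` whose normalised logarithm lies in `U` -/
def imit (β : ℝ) (K : Set ℂ) (f : ℂ → ℂ) (ε : ℝ) (U : Set ℝ) (δ T : ℝ) : Set ℝ :=
  {t : ℝ | t ∈ Set.Icc 0 T ∧ nlog β δ t ∈ U ∧ ∃ d < ε, ∀ z ∈ K, ‖shift t z - f z‖ ≤ d}

theorem result (β : ℝ) (hβ : 0 < β) (hβ4 : β ≤ 4) :
    0 < ak (β / 2) ∧
    (∀ K : Set ℂ, IsCompact K → (∀ z ∈ K, 1 / 2 < z.re ∧ z.re < 1) → ∀ Φ : (ℂ → ℂ) → ℝ, IsTest K Φ →
      ∃ m : ℝ, Tendsto (fun M : ℕ => ∫ x, Φ (euler M x) ∂(phases β M)) atTop (𝓝 m) ∧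
        ∀ δ : ℝ → ℝ, NearLine δ → ∀ F : BoundedContinuousFunction ℝ ℝ,
          Tendsto (fun T : ℝ => (2 * δ T) ^ (β ^ 2 / 4) * (1 / T) *
            ∫ t in (0:ℝ)..T, zs (δ T) t ^ β * (F (nlog β (δ T) t) * Φ (shift t))) atTop
            (𝓝 (ak (β / 2) * m * ∫ x, F x ∂(gaussianReal 0 1)))) ∧
    (∀ (K : Set ℂ) (f : ℂ → ℂ), Admissible K f → ∀ ε : ℝ, 0 < ε → ∃ κ : ℝ, 0 < κ ∧
      ∀ δ : ℝ → ℝ, NearLine δ → ∀ U : Set ℝ, IsOpen U → ∀ c : ℝ, c < κ * ((gaussianReal 0 1) U).toReal →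
        ∀ᶠ T : ℝ in atTop, c * ∫ t in (0:ℝ)..T, zs (δ T) t ^ β ≤
          ∫ t in imit β K f ε U (δ T) T, zs (δ T) t ^ β) := by
  have e1 : ∀ k : ℝ, 0 < k → ∀ m : ℕ, dd k m = Pool.Agent.H306R2.lc k m := by
    intro k hk m
    unfold dd
    have hG : Real.Gamma k ≠ 0 := (Real.Gamma_pos_of_pos hk).ne'
    induction m with
    | zero =>
      unfold Pool.Agent.H306R2.lc
      simp [hG]
    | succ m ih =>
      have h1 : Pool.Agent.H306R2.lc k (m + 1) = Pool.Agent.H306R2.lc k m * ((k + m) / ((m : ℝ) + 1)) := by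
        unfold Pool.Agent.H306R2.lc
        rw [Finset.prod_range_succ]
      have hkm : k + (m : ℝ) ≠ 0 := by positivity
      have h2 : Real.Gamma (k + ((m + 1 : ℕ) : ℝ)) = (k + m) * Real.Gamma (k + m) := by
        rw [← Real.Gamma_add_one hkm]
        congr 1
        push_cast
        ring
      have hf : (m.factorial : ℝ) ≠ 0 := by positivity
      rw [h1, ← ih, h2, Nat.factorial_succ]
      push_cast
      field_simp
  have e3 : ∀ k : ℝ, 0 < k → ak k = Pool.Agent.H306R2.aF k := by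
    intro k hk
    unfold ak Pool.Agent.H306R2.aF
    refine tprod_congr fun p => ?_
    simp_rw [e1 k hk, one_div, inv_pow, div_eq_mul_inv]
  have hβ2 : 0 < β / 2 := by positivity
  have hβ3 : β / 2 ≤ 2 := by linarith
  have e5 : ∀ δ t : ℝ, Pool.Agent.W184.zn (1 / 2 + δ) t = zs δ t := by
    intro δ t
    unfold Pool.Agent.W184.zn zs
    congr 2
    push_cast
    ring
  have e6 : ∀ δ : ℝ, (2 * δ) ^ ((β / 2) ^ 2) = (2 * δ) ^ (β ^ 2 / 4) := fun δ => by congr 1; ring
  have e7 : ∀ δ t : ℝ, Pool.Agent.R313.TW.XX (β / 2) δ t = nlog β δ t := by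
    intro δ t
    unfold Pool.Agent.R313.TW.XX Pool.Agent.Y753.NL.ell Pool.Agent.Y753.NL.sg Pool.Agent.Y753.NL.ell nlog
    rw [e5]
  have e8 : 2 * (β / 2) = β := by ring
  have e9 : ∀ p : ℕ, Pool.Agent.N748.MM.lm (β / 2) p = phaseLaw β p := by
    intro p
    unfold Pool.Agent.N748.MM.lm phaseLaw Pool.Agent.N748.MM.lw
    congr 1
    funext y
    rw [e8]
    congr 4
    rw [div_eq_mul_inv]
    congr 1
    rw [← Complex.ofReal_inv]
    congr 1
    rw [Real.sqrt_eq_rpow, ← Real.rpow_neg (Nat.cast_nonneg p)]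
    norm_num
  have e10 : ∀ M : ℕ, Pool.Agent.N748.MM.MP (β / 2) (ZU.pr M) = phases β M := by
    intro M
    unfold Pool.Agent.N748.MM.MP phases
    simp_rw [e9]
    rfl
  have ep : ∀ δ : ℝ → ℝ, NearLine δ → Pool.Agent.N748.MM.Pth δ := fun δ h => ⟨h.tendsto_zero, h.mul_log⟩
  rw [e3 _ hβ2]
  refine ⟨Pool.Agent.H306R2.aF_pos hβ2, ?_, ?_⟩
  · intro K hK hKs Φ hΦ
    obtain ⟨B0, hB0⟩ := hΦ.bounded
    obtain ⟨m, hm, hlim⟩ := Pool.Agent.N748.MM.lim_all hβ2 hβ3 hK (fun z hz => hKs z hz) (Φ := Φ) (B0 := B0)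
      ⟨hB0, hΦ.unif⟩
    refine ⟨m, ?_, ?_⟩
    · simp_rw [← e10]
      exact hm
    · intro δ hδ F
      have h1 := hlim δ (ep δ hδ) F
      have e11 : Pool.Agent.H306R2.aF (β / 2) * m * ∫ x, F x ∂(gaussianReal 0 1) =
        Pool.Agent.H306R2.aF (β / 2) * (∫ x, F x ∂(gaussianReal 0 1)) * m := by ring
      rw [e11]
      refine h1.congr' ?_
      filter_upwards [(ep δ hδ).ev] with T hT
      rw [Pool.Agent.N748.MM.iv_Icc hT.2.2.le, ← integral_const_mul]
      congr 1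
      funext t
      unfold Pool.Agent.N748.MM.wt0 Pool.Agent.N748.MM.tf
      rw [if_pos hT, if_pos hT, e5, e7, e8, e6]
      unfold shift Pool.Agent.R304.UP.sh
      ring
  · intro K f h ε hε
    obtain ⟨κ, hκ, hmain⟩ := Pool.Agent.N748.MM.fin2 hβ2 hβ3 h.compact (fun z hz => h.strip z hz) h.cont (by
      intro η hη
      obtain ⟨p, hp0, hp⟩ := ZFM.zero_free_of_approx h.compact h.compl_connected f h.cont h.hol
        h.nonzero (fun η hη => ZFM.mergelyan h.compact h.compl_connected f h.cont h.hol η hη)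
        (η / 2) (half_pos hη)
      obtain ⟨q, hq⟩ := ZU.exp_approx h.compact h.compl_connected p hp0 (η / 2) (half_pos hη)
      refine ⟨fun z => q.eval z, q.differentiable, fun z hz => ?_⟩
      calc ‖Complex.exp (q.eval z) - f z‖ = ‖(Complex.exp (q.eval z) - p.eval z) + (p.eval z - f z)‖ := by
            congr 1; ring
        _ ≤ ‖Complex.exp (q.eval z) - p.eval z‖ + ‖p.eval z - f z‖ := norm_add_le _ _
        _ < η / 2 + η / 2 := add_lt_add (hq z hz) (hp z hz)
        _ = η := by ring) hε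
    refine ⟨κ, hκ, fun δ hδ U hU c hc => ?_⟩
    filter_upwards [hmain δ (ep δ hδ) U hU c hc, (ep δ hδ).ev] with T hT hT2
    have hSm : MeasurableSet {t | Pool.Agent.R313.TW.XX (β / 2) (δ T) t ∈ U ∧ t ∈ Pool.Agent.N748.MM.SU ε K f} :=
      ((Pool.Agent.R313.TW.XX_meas hT2.2.1) hU.measurableSet).inter
        (Pool.Agent.N748.MM.isOpen_SU h.compact (fun z hz => h.strip z hz) h.cont ε).measurableSet
    have e12 : imit β K f ε U (δ T) T = Set.Icc 0 T ∩
        {t | Pool.Agent.R313.TW.XX (β / 2) (δ T) t ∈ U ∧ t ∈ Pool.Agent.N748.MM.SU ε K f} := by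
      ext t
      unfold imit Pool.Agent.N748.MM.SU shift
      simp only [Set.mem_setOf_eq, Set.mem_inter_iff, e7]
    rw [setIntegral_indicator hSm, ← e12] at hT
    have hc0 : 0 < (2 * δ T) ^ (β ^ 2 / 4) / T := by
      have := hT2.1
      have := hT2.2.2
      positivity
    have e13 : ∀ t, Pool.Agent.N748.MM.wt0 (β / 2) δ T t = (2 * δ T) ^ (β ^ 2 / 4) / T * zs (δ T) t ^ β := by
      intro t
      unfold Pool.Agent.N748.MM.wt0
      rw [if_pos hT2, e5, e8, e6]
    simp_rw [e13, integral_const_mul] at hT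
    rw [Pool.Agent.N748.MM.iv_Icc hT2.2.2.le]
    refine le_of_mul_le_mul_left ?_ hc0
    calc (2 * δ T) ^ (β ^ 2 / 4) / T * (c * ∫ t in Set.Icc 0 T, zs (δ T) t ^ β) =
        c * ((2 * δ T) ^ (β ^ 2 / 4) / T * ∫ t in Set.Icc 0 T, zs (δ T) t ^ β) := by ring
      _ ≤ _ := hT

end Pool.Agent.Results.MP_f9aece_nt.UniversalityMomentMeasures
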